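import Pool.Agent.W_7d29a1_P89.Basic

/-!
Theorem (P): superadditivity of the moments, lower bound at the exponential scale, the first moment.
-/

namespace Pool.Agent.W_7d29a1_P25

open MeasureTheory ProbabilityTheory Filter Topology Pool.Agent.W_MP_7d29a1_pr
  Pool.Agent.W_7d29a1_h46 Pool.Agent.W_7d29a1_h46u Pool.Agent.W_7d29a1_D2.B35
  Pool.Agent.W_7d29a1_P89

variable {d : ℕ} {ρ : Measure ℝ} [IsProbabilityMeasure ρ]

lemma ZH_add (hd : 0 < d) (P : Prm d) (η : Env d) (m n : ℕ) :
    ZH P η (m + n) = ZH P η m *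
      ∑ s : Fin m → Step d, FreeU_p P.be P.h m s η * ZH P (sh m (pos s m) η) n := by
  have hZ := Z_pos hd P.be P.h η m
  have h2 : ∑ s : Fin m → Step d, wgt P.be P.h η s * Z P.be P.h (sh m (pos s m) η) n =
      Z P.be P.h η m *
        ∑ s : Fin m → Step d, FreeU_p P.be P.h m s η * Z P.be P.h (sh m (pos s m) η) n := by
    rw [Finset.mul_sum]
    refine Finset.sum_congr rfl fun s _ => ?_
    unfold FreeU_p
    rw [← mul_assoc, mul_div_cancel₀ _ hZ.ne']
  have h1 : ∀ s : Fin m → Step d,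
      FreeU_p P.be P.h m s η * ZH P (sh m (pos s m) η) n =
        Real.exp (-((n : ℝ) * P.Lam)) *
          (FreeU_p P.be P.h m s η * Z P.be P.h (sh m (pos s m) η) n) := fun s => by
    unfold ZH
    ring
  rw [Finset.sum_congr rfl fun s _ => h1 s, ← Finset.mul_sum]
  unfold ZH
  rw [exp_split, Z_add, h2]
  ring

lemma pow_sum_le (hd : 0 < d) (P : Prm d) {t : ℝ} (h0 : 0 ≤ t) (h1 : t ≤ 1) (η : Env d)
    (m n : ℕ) :
    ∑ s : Fin m → Step d, (ZH P η m ^ t * FreeU_p P.be P.h m s η) *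
      ZH P (sh m (pos s m) η) n ^ t ≤ ZH P η (m + n) ^ t := by
  have hj := (Real.concaveOn_rpow h0 h1).le_map_sum (t := Finset.univ)
    (w := fun s : Fin m → Step d => FreeU_p P.be P.h m s η)
    (p := fun s : Fin m → Step d => ZH P (sh m (pos s m) η) n)
    (fun s _ => FreeU_nonneg hd P.be P.h m s η) (FreeU_sum hd P.be P.h m η)
    (fun s _ => (ZH_pos hd P _ n).le)
  simp only [smul_eq_mul] at hj
  rw [ZH_add hd, Real.mul_rpow (ZH_pos hd P η m).le
    (Finset.sum_nonneg fun s _ => mul_nonneg (FreeU_nonneg hd P.be P.h m s η)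
      (ZH_pos hd P _ n).le)]
  calc ∑ s : Fin m → Step d, (ZH P η m ^ t * FreeU_p P.be P.h m s η) *
        ZH P (sh m (pos s m) η) n ^ t
      = ZH P η m ^ t * ∑ s : Fin m → Step d, FreeU_p P.be P.h m s η *
        ZH P (sh m (pos s m) η) n ^ t := by
        rw [Finset.mul_sum]
        exact Finset.sum_congr rfl fun s _ => mul_assoc _ _ _
    _ ≤ _ := mul_le_mul_of_nonneg_left hj (Real.rpow_nonneg (ZH_pos hd P η m).le _)

lemma dependsOn_ZHr (P : Prm d) (n : ℕ) :
    DependsOn (fun η : Env d => ZH P η n) {p | 1 ≤ p.1 ∧ p.1 ≤ n} := by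
  intro η η' hη
  have h2 : Z P.be P.h η n = Z P.be P.h η' n := dependsOn_Z P.be P.h n hη
  simp only
  unfold ZH
  rw [h2]

/-- (B1) -/
theorem superA (hd : 0 < d) (hρ : EM ρ) (P : Prm d) {t : ℝ} (h0 : 0 ≤ t) (h1 : t ≤ 1) (m n : ℕ) :
    aP ρ P m t * aP ρ P n t ≤ aP ρ P (m + n) t := by
  have hnn : ∀ (s : Fin m → Step d) (η : Env d), 0 ≤ (ZH P η m ^ t * FreeU_p P.be P.h m s η) *
      ZH P (sh m (pos s m) η) n ^ t := fun s η =>
    mul_nonneg (mul_nonneg (Real.rpow_nonneg (ZH_pos hd P η m).le _)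
      (FreeU_nonneg hd P.be P.h m s η)) (Real.rpow_nonneg (ZH_pos hd P _ n).le _)
  have hmF : ∀ s : Fin m → Step d,
      Measurable fun η : Env d => ZH P η m ^ t * FreeU_p P.be P.h m s η := fun s =>
    ((measurable_ZH P m).pow_const t).mul (FreeU_meas P.be P.h m s)
  have hmG : ∀ y : Site d, Measurable fun η : Env d => ZH P (sh m y η) n ^ t := fun y =>
    ((measurable_ZH P n).comp (measurable_sh m y)).pow_const t
  have hint : ∀ s : Fin m → Step d, Integrable (fun η : Env d =>
      (ZH P η m ^ t * FreeU_p P.be P.h m s η) * ZH P (sh m (pos s m) η) n ^ t) (law d ρ) := by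
    intro s
    refine int_of_le hd hρ P (C := 1) (n := m + n) ((hmF s).mul (hmG _)) (hnn s) fun η => ?_
    rw [one_mul]
    refine le_trans ?_ (rpow_le_one_add (ZH_pos hd P η (m + n)).le h0 h1)
    refine le_trans ?_ (pow_sum_le hd P h0 h1 η m n)
    exact Finset.single_le_sum (f := fun s : Fin m → Step d =>
      (ZH P η m ^ t * FreeU_p P.be P.h m s η) * ZH P (sh m (pos s m) η) n ^ t)
      (fun r _ => hnn r η) (Finset.mem_univ s)
  have hintF : ∀ s : Fin m → Step d, Integrable (fun η : Env d =>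
      ZH P η m ^ t * FreeU_p P.be P.h m s η) (law d ρ) := by
    intro s
    refine int_of_le hd hρ P (C := 1) (n := m) (hmF s)
      (fun η => mul_nonneg (Real.rpow_nonneg (ZH_pos hd P η m).le _)
        (FreeU_nonneg hd P.be P.h m s η)) fun η => ?_
    rw [one_mul]
    refine le_trans ?_ (rpow_le_one_add (ZH_pos hd P η m).le h0 h1)
    have h2 := FreeU_le_one hd P.be P.h m s η
    have h3 := Real.rpow_nonneg (ZH_pos hd P η m).le t
    calc ZH P η m ^ t * FreeU_p P.be P.h m s η ≤ ZH P η m ^ t * 1 :=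
          mul_le_mul_of_nonneg_left h2 h3
      _ = ZH P η m ^ t := mul_one _
  have hv : ∀ s : Fin m → Step d, ∫ η, (ZH P η m ^ t * FreeU_p P.be P.h m s η) *
      ZH P (sh m (pos s m) η) n ^ t ∂(law d ρ) =
      (∫ η, ZH P η m ^ t * FreeU_p P.be P.h m s η ∂(law d ρ)) * aP ρ P n t := by
    intro s
    have hd1 : DependsOn (fun η : Env d => ZH P η m ^ t * FreeU_p P.be P.h m s η)
        {p : ℕ × Site d | p.1 ≤ m} := by
      intro η η' hη
      have h3 : ZH P η m = ZH P η' m := dependsOn_ZHr P m fun p hp => hη p hp.2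
      have h4 : FreeU_p P.be P.h m s η = FreeU_p P.be P.h m s η' := FreeU_dep P.be P.h m s hη
      simp only
      rw [h3, h4]
    have hd2 : DependsOn (fun η : Env d => ZH P (sh m (pos s m) η) n ^ t)
        {p : ℕ × Site d | p.1 ≤ m}ᶜ := by
      refine dependsOn_sh (G := fun η : Env d => ZH P η n ^ t) ?_ m (pos s m)
      intro η η' hη
      have h3 : ZH P η n = ZH P η' n := dependsOn_ZHr P n fun p hp => hη p hp.1
      simp only
      rw [h3]
    rw [integral_indep (ρ := ρ) {p : ℕ × Site d | p.1 ≤ m}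
      (F := fun η : Env d => ZH P η m ^ t * FreeU_p P.be P.h m s η)
      (G := fun η : Env d => ZH P (sh m (pos s m) η) n ^ t) (hmF s) (hmG _) hd1 hd2,
      integral_sh m (pos s m) (F := fun η : Env d => ZH P η n ^ t)
        ((measurable_ZH P n).pow_const t)]
    rfl
  have hS : ∑ s : Fin m → Step d, ∫ η, ZH P η m ^ t * FreeU_p P.be P.h m s η ∂(law d ρ) =
      aP ρ P m t := by
    rw [← integral_finsetSum _ fun s _ => hintF s]
    unfold aP
    congr 1
    funext η
    rw [← Finset.mul_sum, FreeU_sum hd, mul_one]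
  calc aP ρ P m t * aP ρ P n t
      = ∑ s : Fin m → Step d, ∫ η, (ZH P η m ^ t * FreeU_p P.be P.h m s η) *
        ZH P (sh m (pos s m) η) n ^ t ∂(law d ρ) := by
        rw [Finset.sum_congr rfl fun s _ => hv s, ← Finset.sum_mul, hS]
    _ = ∫ η, ∑ s : Fin m → Step d, (ZH P η m ^ t * FreeU_p P.be P.h m s η) *
        ZH P (sh m (pos s m) η) n ^ t ∂(law d ρ) :=
        (integral_finsetSum _ fun s _ => hint s).symm
    _ ≤ aP ρ P (m + n) t :=
        integral_mono (integrable_finsetSum _ fun s _ => hint s)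
          (integrable_pow hd hρ P (m + n) h0 h1) fun η => pow_sum_le hd P h0 h1 η m n

lemma ZH_exp (hd : 0 < d) (P : Prm d) (η : Env d) (n : ℕ) :
    ZH P η n = Real.exp (X P.be P.h η n - (n : ℝ) * P.Lam) := by
  have h3 : Z P.be P.h η n = Real.exp (X P.be P.h η n) := (Real.exp_log (Z_pos hd _ _ _ _)).symm
  unfold ZH
  rw [h3, ← Real.exp_add]
  congr 1
  ring

/-- (B2) -/
theorem lowA (hd : 0 < d) (hρ : EM ρ) (P : Prm d) (hL : P.Lam = lam ρ P.be P.h) {t : ℝ}
    (h0 : 0 ≤ t) (h1 : t ≤ 1) :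
    ∀ e > 0, ∃ N : ℕ, ∀ n ≥ N, Real.exp (-(e * (n : ℝ))) ≤ aP ρ P n t := by
  intro e he
  have hT := tendsto_A hd hρ P.be P.h
  have h2 : ∀ᶠ n : ℕ in atTop, lam ρ P.be P.h - e < A ρ P.be P.h n / n :=
    hT.eventually (lt_mem_nhds (by linarith))
  obtain ⟨N, hN⟩ := eventually_atTop.1 h2
  refine ⟨max N 1, fun n hn => ?_⟩
  have hn1 : (0 : ℝ) < n := by
    have : 1 ≤ n := le_trans (le_max_right _ _) hn
    exact_mod_cast this
  have h3 := hN n (le_trans (le_max_left _ _) hn)
  rw [lt_div_iff₀ hn1] at h3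
  have h4 : -(e * (n : ℝ)) ≤ t * (A ρ P.be P.h n - n * P.Lam) := by
    rw [hL]
    have h5 : -(e * (n : ℝ)) ≤ A ρ P.be P.h n - n * lam ρ P.be P.h := by nlinarith
    rcases le_total 0 (A ρ P.be P.h n - n * lam ρ P.be P.h) with h6 | h6
    · have h7 : 0 ≤ t * (A ρ P.be P.h n - n * lam ρ P.be P.h) := mul_nonneg h0 h6
      have h8 : 0 ≤ e * (n : ℝ) := by positivity
      linarith
    · nlinarith
  refine (Real.exp_le_exp.2 h4).trans ?_
  have hX : Integrable (fun η => X P.be P.h η n) (law d ρ) := (concU hd hρ P.be P.h n).1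
  have hf : Integrable (fun η => t * (X P.be P.h η n - n * P.Lam)) (law d ρ) :=
    (hX.sub (integrable_const _)).const_mul t
  set M := t * (A ρ P.be P.h n - n * P.Lam) with hM
  have hfM : ∫ η, t * (X P.be P.h η n - n * P.Lam) ∂(law d ρ) = M := by
    rw [integral_const_mul, integral_sub hX (integrable_const _)]
    simp [A, hM]
  have hg : Integrable (fun η => t * (X P.be P.h η n - n * P.Lam) - M) (law d ρ) :=
    hf.sub (integrable_const _)
  have h9 : ∫ η, Real.exp M * (1 + (t * (X P.be P.h η n - n * P.Lam) - M)) ∂(law d ρ) =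
      Real.exp M := by
    rw [integral_const_mul, integral_add (integrable_const _) hg,
      integral_sub hf (integrable_const _), hfM]
    simp
  rw [← h9]
  unfold aP
  refine integral_mono (((integrable_const _).add hg).const_mul _)
    (integrable_pow hd hρ P n h0 h1) fun η => ?_
  simp only
  rw [ZH_exp hd, ← Real.exp_mul]
  have h10 := Real.add_one_le_exp (t * (X P.be P.h η n - n * P.Lam) - M)
  calc Real.exp M * (1 + (t * (X P.be P.h η n - n * P.Lam) - M))
      ≤ Real.exp M * Real.exp (t * (X P.be P.h η n - n * P.Lam) - M) :=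
        mul_le_mul_of_nonneg_left (by linarith) (Real.exp_pos _).le
    _ = Real.exp ((X P.be P.h η n - n * P.Lam) * t) := by
        rw [← Real.exp_add]
        congr 1
        ring

/-- The law of one site. -/
lemma integral_site (p : ℕ × Site d) {f : ℝ → ℝ} (hf : Measurable f) :
    ∫ η : Env d, f (η p) ∂(law d ρ) = ∫ x, f x ∂ρ := by
  have h := measurePreserving_eval_infinitePi (fun _ : ℕ × Site d => ρ) p
  have h2 : Measure.map (Function.eval p) (law d ρ) = ρ := h.map_eq
  conv_rhs => rw [← h2]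
  rw [integral_map h.measurable.aemeasurable hf.aestronglyMeasurable]

lemma pos_one (e : Step d) : pos (fun _ : Fin 1 => e) 1 = vec e := by
  unfold pos
  simp

lemma mean_Z1 (hρ : EM ρ) (be : ℝ) (h : Vec d) :
    ∫ η, Z be h η 1 ∂(law d ρ) =
      (∫ x, Real.exp (be * x) ∂ρ) * ∑ e : Step d, Real.exp (inner ℝ h (emb (vec e))) := by
  have h1 : ∀ η : Env d, Z be h η 1 = ∑ e : Step d,
      Real.exp (inner ℝ h (emb (vec e))) * Real.exp (be * η (1, vec e)) := by
    intro η
    rw [Z_eq, ← (Equiv.funUnique (Fin 1) (Step d)).symm.sum_comp]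
    refine Finset.sum_congr rfl fun e _ => ?_
    have h2 : ((Equiv.funUnique (Fin 1) (Step d)).symm e) = fun _ : Fin 1 => e := rfl
    rw [h2]
    unfold wgt energy
    rw [Real.exp_add]
    have h3 : pos (fun _ : Fin 1 => e) 1 = vec e := pos_one e
    simp [h3]
  have hint : ∀ y : Site d, Integrable (fun η : Env d => Real.exp (be * η (1, y))) (law d ρ) := by
    intro y
    have h := measurePreserving_eval_infinitePi (fun _ : ℕ × Site d => ρ) (1, y)
    have h2 : Integrable (fun t => Real.exp (be * t)) ρ := hρ be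
    exact h.integrable_comp_of_integrable h2
  simp only [h1]
  rw [integral_finsetSum _ fun e _ => (hint _).const_mul _, Finset.mul_sum]
  refine Finset.sum_congr rfl fun e _ => ?_
  rw [integral_const_mul, integral_site (ρ := ρ) (1, vec e)
    (f := fun x => Real.exp (be * x)) (by fun_prop)]
  ring

/-- (B3) -/
theorem oneA (hd : 0 < d) (hρ : EM ρ) (P : Prm d) (hL : P.Lam = lam ρ P.be P.h)
    (hvs : lam ρ P.be P.h < Real.log (∫ x, Real.exp (P.be * x) ∂ρ) +
      Real.log (∑ e : Step d, Real.exp (inner ℝ P.h (emb (vec e))))) :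
    ∃ n, 1 < aP ρ P n 1 := by
  refine ⟨1, ?_⟩
  have hm : 0 < ∫ x, Real.exp (P.be * x) ∂ρ := integral_exp_pos (hρ P.be)
  have : Nonempty (Step d) := ⟨(⟨0, hd⟩, true)⟩
  have hF : 0 < ∑ e : Step d, Real.exp (inner ℝ P.h (emb (vec e))) :=
    Finset.sum_pos (fun e _ => Real.exp_pos _) Finset.univ_nonempty
  have h1 : aP ρ P 1 1 = Real.exp (-P.Lam) * ((∫ x, Real.exp (P.be * x) ∂ρ) *
      ∑ e : Step d, Real.exp (inner ℝ P.h (emb (vec e)))) := by
    rw [← mean_Z1 hρ P.be P.h]
    unfold aP ZH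
    simp only [Real.rpow_one, Nat.cast_one, one_mul]
    rw [integral_const_mul]
  rw [h1, ← Real.exp_log (mul_pos hm hF), ← Real.exp_add, Real.log_mul hm.ne' hF.ne', hL]
  exact Real.one_lt_exp_iff.2 (by linarith)

end Pool.Agent.W_7d29a1_P25
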